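import Mathlib

/-!
Project H753-LM (problem MP_417230_al, frozen statement S01303): every complete locally minimal
abelian group is feathered.  Definitions and task statements.
-/

set_option autoImplicit false

namespace Pool.Agent.H753R3.LM

open Topology Filter Set

/-- `A` is covered by finitely many translates of `U`. -/
def Sml {G : Type} [AddCommGroup G] (A U : Set G) : Prop :=
  ∃ F : Finset G, ∀ x ∈ A, ∃ f ∈ F, x - f ∈ U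

/-- the set `m • A` of all multiples. -/
def mul {G : Type} [AddCommGroup G] (m : ℤ) (A : Set G) : Set G := {x | ∃ v ∈ A, x = m • v}

/-- the set `W + d • A`. -/
def Y {G : Type} [AddCommGroup G] (W : Set G) (d : ℤ) (A : Set G) : Set G :=
  {x | ∃ w ∈ W, ∃ v ∈ A, x = w + d • v}

/-- a decreasing sequence of symmetric sets with `V (n+1) + V (n+1) ⊆ V n`. -/
structure Chain {G : Type} [AddCommGroup G] (V : ℕ → Set G) : Prop where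
  zero : ∀ n, (0 : G) ∈ V n
  neg : ∀ n, ∀ x ∈ V n, -x ∈ V n
  add : ∀ n, ∀ x ∈ V (n + 1), ∀ y ∈ V (n + 1), x + y ∈ V n

/-- multiples `m • V n` with `d ∤ m` are never covered by finitely many translates of
`W + d • V k`. -/
def Far {G : Type} [AddCommGroup G] (V : ℕ → Set G) (d : ℤ) (W : Set G) (k : ℕ) : Prop :=
  ∀ m : ℤ, ¬ d ∣ m → ∀ n, ¬ Sml (mul m (V n)) (Y W d (V k))

/-- TASK T0 (final step). -/
def TaskT0 : Prop :=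
  ∀ (G : Type) [AddCommGroup G] [UniformSpace G] [IsUniformAddGroup G] [T2Space G]
    [CompleteSpace G] (V : ℕ → Set G), Chain V → (∀ n, V n ∈ 𝓝 (0 : G)) →
    (∀ U ∈ 𝓝 (0 : G), ∃ n, Sml (V n) U) →
    ∃ K : AddSubgroup G, IsCompact (K : Set G) ∧ TopologicalSpace.MetrizableSpace (G ⧸ K)

/-- TASK T1 (covering lemma). -/
def TaskT1 : Prop :=
  ∀ (G : Type) [AddCommGroup G] (V : ℕ → Set G), Chain V →
    ∀ (ι : Type) (s : Finset ι) (A : ι → Set G) (n : ℕ), (∀ x ∈ V n, ∃ i ∈ s, x ∈ A i) →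
      ∃ i ∈ s, ∃ n', Sml (V n') {x | ∃ a ∈ A i, ∃ b ∈ A i, x = a - b}

/-- TASK T2 (plateau lemma). -/
def TaskT2 : Prop :=
  ∀ (G : Type) [AddCommGroup G] [TopologicalSpace G] [IsTopologicalAddGroup G] (V : ℕ → Set G),
    Chain V → ∀ U ∈ 𝓝 (0 : G), ∃ d : ℤ, 0 ≤ d ∧ ∃ W ∈ 𝓝 (0 : G), ∃ k n : ℕ,
      Sml (mul d (V n)) U ∧ Far V d W k

/-- TASK T3 (limit group). -/
def TaskT3 : Prop :=
  ∀ (G : Type) [AddCommGroup G] [UniformSpace G] [IsUniformAddGroup G] [T2Space G]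
    [CompleteSpace G] (V : ℕ → Set G), Chain V → ∀ D : Set ℤ, D.Nonempty →
    (∀ d₁ ∈ D, ∀ d₂ ∈ D, ∀ U ∈ 𝓝 (0 : G), ∃ d ∈ D, d₁ ∣ d ∧ d₂ ∣ d ∧
      ∃ n, Sml (mul d (V n)) U) →
    ∃ C : AddSubgroup G, IsCompact (C : Set G) ∧
      (∀ U ∈ 𝓝 (0 : G), ∃ d ∈ D, ∃ n, ∀ v ∈ V n, ∃ c ∈ C, d • v - c ∈ U) ∧
      ((0 : ℤ) ∈ D → ∀ c ∈ C, c = 0)

/-- TASK T4 (generic sequence; uses T1). -/
def TaskT4 : Prop :=
  ∀ (G : Type) [AddCommGroup G] (V : ℕ → Set G), Chain V →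
    ∀ (D : Set ℤ) (W W' : ℤ → Set G) (k : ℤ → ℕ), (∀ d ∈ D, Far V d (W d) (k d)) →
    (∀ d ∈ D, ∀ x ∈ W' d, ∀ y ∈ W' d, x - y ∈ W d) → ∀ h : ℕ → ℕ,
    ∃ z : ℕ → G, (∀ j, z j ∈ V (h j)) ∧ ∀ j : ℕ, ∀ d ∈ D, |d| ≤ (j : ℤ) → ∀ m : ℤ,
      |m| ≤ (j : ℤ) → ¬ d ∣ m → ∀ a : ℕ → ℤ, (∀ i < j, |a i| ≤ (i : ℤ)) →
      m • z j - ∑ i ∈ Finset.range j, a i • z i ∉ Y (W' d) d (V (k d + 1))

/-- TASK T5 (approximation of local quasi-characters by characters). -/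
def TaskT5 : Prop :=
  ∀ (φ : (ℕ →₀ ℤ) → AddCircle (1 : ℝ)) (s : ℕ) (ε : ℝ), 0 < ε → ε ≤ 1 / 100 →
    (∀ a b : ℕ →₀ ℤ, (∀ j, |a j| ≤ 2 * 4 ^ j ∧ (j < s → a j = 0)) →
      (∀ j, |b j| ≤ 2 * 4 ^ j ∧ (j < s → b j = 0)) →
      (∀ j, |(a + b) j| ≤ 2 * 4 ^ j) → ‖φ (a + b) - φ a - φ b‖ ≤ ε) →
    ∃ Ψ : (ℕ →₀ ℤ) →+ AddCircle (1 : ℝ),
      ∀ c : ℕ →₀ ℤ, (∀ j, |c j| ≤ (j : ℤ) ∧ (j < s → c j = 0)) → ‖Ψ c - φ c‖ ≤ 2 * ε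

/-- TASK T6 (Peter-Weyl for compact abelian groups, from
`Pool.Agent.Helper472...exists_rep_ne_one`). -/
def TaskT6 : Prop :=
  ∀ (C : Type) [AddCommGroup C] [TopologicalSpace C] [IsTopologicalAddGroup C] [CompactSpace C]
    [T2Space C] (g : C), g ≠ 0 → ∃ χ : C →+ AddCircle (1 : ℝ), Continuous χ ∧ 1 / 4 ≤ ‖χ g‖

/-- TASK T7 (the coarser group topology). -/
def TaskT7 : Prop :=
  ∀ (G X : Type) [AddCommGroup G] [AddCommGroup X] [τ : TopologicalSpace G]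
    [IsTopologicalAddGroup G] (π : X →+ G) (B : Set (Set X)), B.Nonempty →
    (∀ b ∈ B, (0 : X) ∈ b) →
    (∀ b ∈ B, ∃ b' ∈ B, ∀ x ∈ b', ∀ y ∈ b', x - y ∈ b) →
    (∀ b₁ ∈ B, ∀ b₂ ∈ B, ∃ b ∈ B, b ⊆ b₁ ∩ b₂) →
    (∀ g : G, g ≠ 0 → ∃ O ∈ 𝓝 (0 : G), ∃ b ∈ B, ∀ x ∈ b, g - π x ∉ O) →
    ∃ σ : TopologicalSpace G, @IsTopologicalAddGroup G σ _ ∧ @T2Space G σ ∧ τ ≤ σ ∧
      ∀ S : Set G, S ∈ @nhds G σ 0 ↔
        ∃ O ∈ 𝓝 (0 : G), ∃ b ∈ B, ∀ o ∈ O, ∀ x ∈ b, o + π x ∈ S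

end Pool.Agent.H753R3.LM
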