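import Pool.Agent.H753R3.LM.T1

set_option autoImplicit false

namespace Pool.Agent.H753R3.LM

open Topology Filter Set

variable {G : Type} [AddCommGroup G]

theorem Chain.zsmul_mem {V : ℕ → Set G} (hV : Chain V) :
    ∀ (r n : ℕ) (m : ℤ) (x : G), |m| ≤ 2 ^ r → x ∈ V (n + r) → m • x ∈ V n := by
  intro r
  induction r with
  | zero =>
    intro n m x hm hx
    have h1 : m = 0 ∨ m = 1 ∨ m = -1 := by
      rw [pow_zero] at hm
      rcases abs_le.mp hm with ⟨h1, h2⟩
      omega
    rcases h1 with rfl | rfl | rfl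
    · simpa using hV.zero n
    · simpa using hx
    · simpa using hV.neg n x hx
  | succ r ih =>
    intro n m x hm hx
    have hm2 : |m| ≤ 2 * 2 ^ r := by rw [pow_succ] at hm; linarith
    obtain ⟨a, b, hab, ha, hb⟩ : ∃ a b : ℤ, m = a + b ∧ |a| ≤ 2 ^ r ∧ |b| ≤ 2 ^ r := by
      refine ⟨m / 2, m - m / 2, by ring, ?_, ?_⟩
      · rw [abs_le] at hm2 ⊢
        constructor <;> omega
      · rw [abs_le] at hm2 ⊢
        constructor <;> omega
    have hx' : x ∈ V ((n + 1) + r) := by
      have h2 : n + (r + 1) = n + 1 + r := by ring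
      rwa [h2] at hx
    rw [hab, add_smul]
    exact hV.add n _ (ih (n + 1) a x ha hx') _ (ih (n + 1) b x hb hx')

theorem Chain.sum_mem {V : ℕ → Set G} (hV : Chain V) (x : ℕ → G) :
    ∀ (N s : ℕ), (∀ j, s ≤ j → x j ∈ V (j + 1)) →
      ∑ j ∈ Finset.range N, x (s + j) ∈ V s := by
  intro N
  induction N with
  | zero => intro s _; simpa using hV.zero s
  | succ N ih =>
    intro s h
    rw [Finset.sum_range_succ']
    have h1 := ih (s + 1) (fun j hj => h j (by omega))
    have h2 : ∑ j ∈ Finset.range N, x (s + (j + 1)) = ∑ j ∈ Finset.range N, x (s + 1 + j) := by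
      refine Finset.sum_congr rfl fun j _ => ?_
      congr 1
      ring
    rw [h2]
    exact hV.add s _ h1 _ (h s le_rfl)

/-- the homomorphism `c ↦ ∑ c j • z j`. -/
noncomputable def pr (z : ℕ → G) : (ℕ →₀ ℤ) →+ G :=
  (Finsupp.linearCombination ℤ z).toAddMonoidHom

theorem pr_apply (z : ℕ → G) (c : ℕ →₀ ℤ) (N : ℕ) (hN : ∀ j, N ≤ j → c j = 0) :
    pr z c = ∑ j ∈ Finset.range N, c j • z j := by
  show Finsupp.linearCombination ℤ z c = _
  rw [Finsupp.linearCombination_apply]
  refine Finsupp.sum_of_support_subset c ?_ _ (fun i _ => by simp)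
  intro j hj
  rw [Finsupp.mem_support_iff] at hj
  rw [Finset.mem_range]
  by_contra h
  exact hj (hN j (by omega))

theorem exists_bound (c : ℕ →₀ ℤ) : ∃ N, ∀ j, N ≤ j → c j = 0 := by
  refine ⟨c.support.sup id + 1, fun j hj => ?_⟩
  by_contra h
  have h1 : j ∈ c.support := Finsupp.mem_support_iff.mpr h
  have h2 : id j ≤ c.support.sup id := Finset.le_sup h1
  simp only [id] at h2
  omega

theorem pr_mem {V : ℕ → Set G} (hV : Chain V) {z : ℕ → G} (hz : ∀ j, z j ∈ V (3 * j + 2))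
    (s : ℕ) (c : ℕ →₀ ℤ) (hc : ∀ j, |c j| ≤ 2 * 4 ^ j ∧ (j < s → c j = 0)) :
    pr z c ∈ V s := by
  obtain ⟨N, hN⟩ := exists_bound c
  rw [pr_apply z c (s + N) (fun j hj => hN j (by omega))]
  have h1 : ∑ j ∈ Finset.range (s + N), c j • z j
      = ∑ j ∈ Finset.range s, c j • z j + ∑ j ∈ Finset.range N, c (s + j) • z (s + j) :=
    Finset.sum_range_add _ s N
  have h2 : ∑ j ∈ Finset.range s, c j • z j = 0 := by
    refine Finset.sum_eq_zero fun j hj => ?_
    rw [(hc j).2 (Finset.mem_range.mp hj), zero_smul]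
  rw [h1, h2, zero_add]
  refine hV.sum_mem (fun j => c j • z j) N s (fun j _ => ?_)
  refine hV.zsmul_mem (2 * j + 1) (j + 1) (c j) (z j) ?_ ?_
  · refine (hc j).1.trans (le_of_eq ?_)
    rw [pow_succ, pow_mul]
    norm_num
    ring
  · have h3 : j + 1 + (2 * j + 1) = 3 * j + 2 := by ring
    rw [h3]
    exact hz j

theorem small_of_le {c : ℕ →₀ ℤ} (hc : ∀ j, |c j| ≤ (j : ℤ)) (j : ℕ) : |c j| ≤ 2 * 4 ^ j := by
  refine (hc j).trans ?_
  have h1 : (j : ℤ) < 4 ^ j := by
    have h0 : j < 4 ^ j := Nat.lt_pow_self (by norm_num)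
    exact_mod_cast h0
  have h2 : (0 : ℤ) < 4 ^ j := by positivity
  linarith

/-- near zero combinations have all coefficients divisible by `d`. -/
theorem near_zero {V : ℕ → Set G} (hV : Chain V) {z : ℕ → G} (hz : ∀ j, z j ∈ V (3 * j + 2))
    (d : ℤ) (W' : Set G) (k : ℕ)
    (hgen : ∀ j : ℕ, |d| ≤ (j : ℤ) → ∀ m : ℤ, |m| ≤ (j : ℤ) → ¬ d ∣ m → ∀ a : ℕ → ℤ,
      (∀ i < j, |a i| ≤ (i : ℤ)) →
      m • z j - ∑ i ∈ Finset.range j, a i • z i ∉ Y W' d (V (k + 1)))
    (s : ℕ) (hs1 : |d| ≤ (s : ℤ)) (hs2 : k + 1 ≤ s)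
    (c : ℕ →₀ ℤ) (hc : ∀ j, |c j| ≤ (j : ℤ)) (hcs : ∀ j, j < s → c j = 0)
    (hW : pr z c ∈ W') : ∀ j, d ∣ c j := by
  classical
  by_contra hcon
  push Not at hcon
  obtain ⟨j₀, hj₀⟩ := hcon
  set T : Finset ℕ := c.support.filter (fun j => ¬ d ∣ c j) with hT
  have hTne : T.Nonempty := by
    refine ⟨j₀, ?_⟩
    rw [hT, Finset.mem_filter, Finsupp.mem_support_iff]
    refine ⟨?_, hj₀⟩
    intro h
    rw [h] at hj₀
    exact hj₀ (dvd_zero d)
  set l := T.max' hTne with hl
  have hlT : l ∈ T := T.max'_mem hTne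
  have hl1 : ¬ d ∣ c l := (Finset.mem_filter.mp hlT).2
  have hl2 : ∀ j, l < j → d ∣ c j := by
    intro j hj
    by_contra h
    have h1 : j ∈ T := by
      rw [hT, Finset.mem_filter, Finsupp.mem_support_iff]
      refine ⟨?_, h⟩
      intro h2
      rw [h2] at h
      exact h (dvd_zero d)
    have h2 := T.le_max' j h1
    omega
  have hls : s ≤ l := by
    by_contra h
    have h1 := hcs l (by omega)
    rw [h1] at hl1
    exact hl1 (dvd_zero d)
  -- the tail
  set q : ℕ →₀ ℤ := Finsupp.onFinset c.support (fun j => if l < j then c j / d else 0) (by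
    intro j hj
    rw [Finsupp.mem_support_iff]
    intro h
    apply hj
    rw [h]
    simp) with hq
  have hq1 : ∀ j, q j = if l < j then c j / d else 0 := fun j => rfl
  have hq2 : pr z q ∈ V (l + 1) := by
    refine pr_mem hV hz (l + 1) q (fun j => ⟨?_, ?_⟩)
    · refine small_of_le (fun i => ?_) j
      rw [hq1]
      split_ifs with h
      · refine le_trans ?_ (hc i)
        exact Int.abs_ediv_le_abs _ _
      · simp
    · intro hj
      rw [hq1, if_neg (by omega)]
  obtain ⟨N, hN⟩ := exists_bound c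
  have hlN : l < N := by
    by_contra h
    have h1 := hN l (by omega)
    rw [h1] at hl1
    exact hl1 (dvd_zero d)
  have hsplit : pr z c = ∑ j ∈ Finset.range l, c j • z j + c l • z l + d • pr z q := by
    rw [pr_apply z c N hN, pr_apply z q N (fun j hj => by
      rw [hq1, hN j hj]; simp), Finset.smul_sum]
    obtain ⟨r, rfl⟩ : ∃ r, N = (l + 1) + r := ⟨N - (l + 1), by omega⟩
    rw [Finset.sum_range_add (fun j => c j • z j) (l + 1) r,
      Finset.sum_range_add (fun j => d • q j • z j) (l + 1) r,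
      Finset.sum_range_succ (fun j => c j • z j) l]
    have h1 : ∑ x ∈ Finset.range (l + 1), d • q x • z x = 0 := by
      refine Finset.sum_eq_zero fun j hj => ?_
      rw [hq1, if_neg (by have := Finset.mem_range.mp hj; omega), zero_smul, smul_zero]
    rw [h1, zero_add]
    congr 1
    refine Finset.sum_congr rfl fun j _ => ?_
    rw [hq1, if_pos (by omega), smul_smul, Int.mul_ediv_cancel' (hl2 _ (by omega))]
  have hY := hgen l (hs1.trans (by exact_mod_cast hls)) (c l) (hc l) hl1 (fun i => - c i)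
    (fun i _ => by rw [abs_neg]; exact hc i)
  apply hY
  refine ⟨pr z c, hW, - pr z q, hV.anti (by omega) (hV.neg _ _ hq2), ?_⟩
  rw [hsplit]
  simp only [neg_smul, Finset.sum_neg_distrib, smul_neg]
  abel

end Pool.Agent.H753R3.LM
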