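import Pool.Agent.H753R3.LM.Asm1

set_option autoImplicit false

namespace Pool.Agent.H753R3.LM

open Topology Filter Set

variable {G : Type} [AddCommGroup G]

/-- basic neighbourhoods of zero in the group of formal combinations. -/
def Bs (t : ℕ) (S : Finset ((ℕ →₀ ℤ) →+ AddCircle (1 : ℝ))) (δ : ℝ) : Set (ℕ →₀ ℤ) :=
  {c | (∀ j, 2 ^ t * |c j| ≤ (j : ℤ)) ∧ ∀ Ψ ∈ S, ‖Ψ c‖ < δ}

/-- the family of basic neighbourhoods. -/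
def BB : Set (Set (ℕ →₀ ℤ)) := {b | ∃ t S δ, 0 < δ ∧ b = Bs t S δ}

theorem Bs_abs {t : ℕ} {S : Finset ((ℕ →₀ ℤ) →+ AddCircle (1 : ℝ))} {δ : ℝ} {c : ℕ →₀ ℤ}
    (hc : c ∈ Bs t S δ) (j : ℕ) : |c j| ≤ (j : ℤ) := by
  refine le_trans ?_ (hc.1 j)
  have h1 : (1 : ℤ) ≤ 2 ^ t := one_le_pow₀ (by norm_num)
  nlinarith [abs_nonneg (c j)]

theorem Bs_supp {t : ℕ} {S : Finset ((ℕ →₀ ℤ) →+ AddCircle (1 : ℝ))} {δ : ℝ} {c : ℕ →₀ ℤ}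
    (hc : c ∈ Bs t S δ) (j : ℕ) (hj : j < 2 ^ t) : c j = 0 := by
  by_contra h
  have h1 : 1 ≤ |c j| := Int.one_le_abs h
  have h2 := hc.1 j
  have h3 : (j : ℤ) < 2 ^ t := by exact_mod_cast hj
  have h4 : (0 : ℤ) < 2 ^ t := by positivity
  nlinarith

theorem Bs_supp' {t : ℕ} {S : Finset ((ℕ →₀ ℤ) →+ AddCircle (1 : ℝ))} {δ : ℝ} {c : ℕ →₀ ℤ}
    (hc : c ∈ Bs t S δ) (j : ℕ) (hj : j < t) : c j = 0 :=
  Bs_supp hc j (hj.trans (Nat.lt_two_pow_self))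

theorem Bs_anti {t t' : ℕ} (h : t ≤ t') {S S' : Finset ((ℕ →₀ ℤ) →+ AddCircle (1 : ℝ))}
    (hS : S ⊆ S') {δ δ' : ℝ} (hδ : δ' ≤ δ) : Bs t' S' δ' ⊆ Bs t S δ := by
  intro c hc
  refine ⟨fun j => le_trans ?_ (hc.1 j), fun Ψ hΨ => (hc.2 Ψ (hS hΨ)).trans_le hδ⟩
  have h1 : (2 : ℤ) ^ t ≤ 2 ^ t' := pow_le_pow_right₀ (by norm_num) h
  exact mul_le_mul_of_nonneg_right h1 (abs_nonneg _)

theorem BB_zero : ∀ b ∈ BB, (0 : ℕ →₀ ℤ) ∈ b := by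
  rintro b ⟨t, S, δ, hδ, rfl⟩
  refine ⟨fun j => by simp, fun Ψ _ => by simpa using hδ⟩

theorem BB_half : ∀ b ∈ BB, ∃ b' ∈ BB, ∀ x ∈ b', ∀ y ∈ b', x - y ∈ b := by
  rintro b ⟨t, S, δ, hδ, rfl⟩
  refine ⟨Bs (t + 1) S (δ / 2), ⟨t + 1, S, δ / 2, by positivity, rfl⟩, ?_⟩
  intro x hx y hy
  refine ⟨fun j => ?_, fun Ψ hΨ => ?_⟩
  · have h1 := hx.1 j
    have h2 := hy.1 j
    rw [pow_succ] at h1 h2
    have h3 : |(x - y) j| ≤ |x j| + |y j| := by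
      rw [Finsupp.sub_apply]
      exact abs_sub _ _
    have h4 : (0 : ℤ) < 2 ^ t := by positivity
    nlinarith
  · rw [map_sub]
    have h1 := hx.2 Ψ hΨ
    have h2 := hy.2 Ψ hΨ
    have h3 := norm_sub_le (Ψ x) (Ψ y)
    linarith

theorem BB_inter : ∀ b₁ ∈ BB, ∀ b₂ ∈ BB, ∃ b ∈ BB, b ⊆ b₁ ∩ b₂ := by
  classical
  rintro b₁ ⟨t₁, S₁, δ₁, hδ₁, rfl⟩ b₂ ⟨t₂, S₂, δ₂, hδ₂, rfl⟩
  refine ⟨Bs (max t₁ t₂) (S₁ ∪ S₂) (min δ₁ δ₂), ⟨_, _, _, lt_min hδ₁ hδ₂, rfl⟩, ?_⟩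
  exact subset_inter
    (Bs_anti (le_max_left _ _) Finset.subset_union_left (min_le_left _ _))
    (Bs_anti (le_max_right _ _) Finset.subset_union_right (min_le_right _ _))

/-- combinations close to a fixed point have all coefficients divisible by `d` eventually. -/
theorem divisible {V : ℕ → Set G} (hV : Chain V) {z : ℕ → G} (hz : ∀ j, z j ∈ V (3 * j + 2))
    (d : ℤ) (W' : Set G) (k : ℕ)
    (hgen : ∀ j : ℕ, |d| ≤ (j : ℤ) → ∀ m : ℤ, |m| ≤ (j : ℤ) → ¬ d ∣ m → ∀ a : ℕ → ℤ,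
      (∀ i < j, |a i| ≤ (i : ℤ)) →
      m • z j - ∑ i ∈ Finset.range j, a i • z i ∉ Y W' d (V (k + 1)))
    (O : Set G) (hO : ∀ x ∈ O, ∀ y ∈ O, x - y ∈ W') (g : G)
    (S : Finset ((ℕ →₀ ℤ) →+ AddCircle (1 : ℝ))) (δ : ℝ)
    (H : ∀ t, ∃ x ∈ Bs t S δ, g - pr z x ∈ O) :
    ∀ t, ∃ x ∈ Bs t S δ, g - pr z x ∈ O ∧ ∀ j, d ∣ x j := by
  intro t
  set s : ℕ := max d.natAbs (k + 1) with hs
  obtain ⟨x₁, hx₁, hx₁O⟩ := H (s + 1)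
  obtain ⟨N, hN⟩ := exists_bound x₁
  obtain ⟨x₂, hx₂, hx₂O⟩ := H (max t (max (s + 1) N))
  have hx₂' : x₂ ∈ Bs (s + 1) S δ :=
    Bs_anti ((le_max_left (s + 1) N).trans (le_max_right _ _)) (Finset.Subset.refl _) le_rfl hx₂
  have hx₂N : ∀ j, j < N → x₂ j = 0 := fun j hj =>
    Bs_supp' hx₂ j (lt_of_lt_of_le hj ((le_max_right (s + 1) N).trans (le_max_right _ _)))
  have hdiv : ∀ j, d ∣ (x₂ - x₁) j := by
    refine near_zero hV hz d W' k hgen s ?_ (le_max_right _ _) (x₂ - x₁) ?_ ?_ ?_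
    · have h1 : d.natAbs ≤ s := le_max_left _ _
      rw [Int.abs_eq_natAbs]
      exact_mod_cast h1
    · intro j
      have h1 := hx₁.1 j
      have h2 := hx₂'.1 j
      have h3 : |(x₂ - x₁) j| ≤ |x₂ j| + |x₁ j| := by
        rw [Finsupp.sub_apply]
        exact abs_sub _ _
      have h4 : (2 : ℤ) ≤ 2 ^ (s + 1) := by
        rw [pow_succ]
        have : (1 : ℤ) ≤ 2 ^ s := one_le_pow₀ (by norm_num)
        linarith
      nlinarith [abs_nonneg (x₂ j), abs_nonneg (x₁ j)]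
    · intro j hj
      rw [Finsupp.sub_apply, Bs_supp' hx₁ j (by omega), Bs_supp' hx₂' j (by omega), sub_zero]
    · rw [map_sub]
      have := hO _ hx₁O _ hx₂O
      have h5 : pr z x₂ - pr z x₁ = (g - pr z x₁) - (g - pr z x₂) := by abel
      rw [h5]
      exact this
  refine ⟨x₂, Bs_anti (le_max_left _ _) (Finset.Subset.refl _) le_rfl hx₂, hx₂O, fun j => ?_⟩
  by_cases hj : j < N
  · rw [hx₂N j hj]
    exact dvd_zero d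
  · have h1 := hdiv j
    rw [Finsupp.sub_apply, hN j (by omega), sub_zero] at h1
    exact h1

/-- division by `d` of a combination. -/
theorem exists_quot (d : ℤ) (x : ℕ →₀ ℤ) (hx : ∀ j, |x j| ≤ (j : ℤ)) (hd : ∀ j, d ∣ x j) :
    ∃ q : ℕ →₀ ℤ, x = d • q ∧ (∀ j, |q j| ≤ (j : ℤ)) ∧ ∀ j, x j = 0 → q j = 0 := by
  classical
  refine ⟨Finsupp.mapRange (fun m => m / d) (by simp) x, ?_, ?_, ?_⟩
  · ext j
    rw [Finsupp.smul_apply, Finsupp.mapRange_apply, smul_eq_mul, Int.mul_ediv_cancel' (hd j)]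
  · intro j
    rw [Finsupp.mapRange_apply]
    exact (Int.abs_ediv_le_abs _ _).trans (hx j)
  · intro j hj
    rw [Finsupp.mapRange_apply, hj, Int.zero_ediv]

end Pool.Agent.H753R3.LM
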