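import Pool.Agent.H753R3.LM.Asm2

set_option autoImplicit false

namespace Pool.Agent.H753R3.LM

open Topology Filter Set

theorem nhds_half_sub {G : Type} [AddCommGroup G] [TopologicalSpace G] [IsTopologicalAddGroup G]
    {s : Set G} (hs : s ∈ 𝓝 (0 : G)) : ∃ U ∈ 𝓝 (0 : G), ∀ v ∈ U, ∀ w ∈ U, v - w ∈ s := by
  obtain ⟨U, hU, hU2⟩ := exists_nhds_zero_half hs
  refine ⟨U ∩ -U, inter_mem hU (neg_mem_nhds_zero G hU), ?_⟩
  intro v hv w hw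
  rw [sub_eq_add_neg]
  exact hU2 _ hv.1 _ hw.2

/-- characters can be divided. -/
theorem exists_div (d : ℤ) (hd : d ≠ 0) (Ψ : (ℕ →₀ ℤ) →+ AddCircle (1 : ℝ)) :
    ∃ Ψ' : (ℕ →₀ ℤ) →+ AddCircle (1 : ℝ), ∀ c, Ψ' (d • c) = Ψ c := by
  have h1 : ∀ j : ℕ, ∃ r : AddCircle (1 : ℝ), d • r = Ψ (Finsupp.single j 1) := by
    intro j
    obtain ⟨t, ht⟩ := QuotientAddGroup.mk_surjective (Ψ (Finsupp.single j 1))
    refine ⟨((t / d : ℝ) : AddCircle (1 : ℝ)), ?_⟩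
    rw [← ht, ← AddCircle.coe_zsmul]
    congr 1
    rw [zsmul_eq_mul]
    have : (d : ℝ) ≠ 0 := by exact_mod_cast hd
    field_simp
  choose r hr using h1
  refine ⟨Finsupp.liftAddHom (fun j => zmultiplesHom _ (r j)), fun c => ?_⟩
  rw [map_zsmul]
  have h2 : (d • (Finsupp.liftAddHom (fun j => zmultiplesHom _ (r j)) :
      (ℕ →₀ ℤ) →+ AddCircle (1 : ℝ))) = Ψ := by
    refine Finsupp.addHom_ext fun j m => ?_
    rw [AddMonoidHom.zsmul_apply, Finsupp.liftAddHom_apply_single, zmultiplesHom_apply,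
      smul_comm, hr, ← map_zsmul, Finsupp.smul_single]
    simp
  exact DFunLike.congr_fun h2 c

theorem haus (hT5 : TaskT5) (hT6 : TaskT6) {G : Type} [AddCommGroup G] [TopologicalSpace G]
    [IsTopologicalAddGroup G] [T2Space G] {V : ℕ → Set G} (hV : Chain V) {z : ℕ → G}
    (hz : ∀ j, z j ∈ V (3 * j + 2)) (D : Set ℤ) (W' : ℤ → Set G) (k : ℤ → ℕ)
    (hW' : ∀ d ∈ D, W' d ∈ 𝓝 (0 : G))
    (hgen : ∀ j : ℕ, ∀ d ∈ D, |d| ≤ (j : ℤ) → ∀ m : ℤ, |m| ≤ (j : ℤ) → ¬ d ∣ m →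
      ∀ a : ℕ → ℤ, (∀ i < j, |a i| ≤ (i : ℤ)) →
      m • z j - ∑ i ∈ Finset.range j, a i • z i ∉ Y (W' d) d (V (k d + 1)))
    (C : AddSubgroup G) (hC : IsCompact (C : Set G))
    (hlim : ∀ U ∈ 𝓝 (0 : G), ∃ d ∈ D, ∃ n, ∀ v ∈ V n, ∃ c ∈ C, d • v - c ∈ U)
    (h0 : (0 : ℤ) ∈ D → ∀ c ∈ C, c = 0) :
    ∀ g : G, g ≠ 0 → ∃ O ∈ 𝓝 (0 : G), ∃ b ∈ BB, ∀ x ∈ b, g - pr z x ∉ O := by
  intro g hg
  by_cases hgC : g ∈ C
  · -- the case `g ∈ C`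
    have : CompactSpace C := isCompact_iff_compactSpace.mp hC
    obtain ⟨χ, hχ, hχg⟩ := hT6 C ⟨g, hgC⟩ (by
      intro h
      exact hg (congrArg Subtype.val h))
    have h1 : {c : C | ‖χ c‖ < 1 / 100} ∈ 𝓝 (0 : C) := by
      have h2 : ContinuousAt (fun c : C => ‖χ c‖) 0 := hχ.norm.continuousAt
      refine h2.eventually (Iio_mem_nhds ?_)
      simp
    rw [nhds_subtype_eq_comap, mem_comap] at h1
    obtain ⟨U₀, hU₀, hU₀2⟩ := h1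
    have hU₀' : U₀ ∈ 𝓝 (0 : G) := hU₀
    obtain ⟨U₁, hU₁, hU₁2⟩ := exists_nhds_zero_half hU₀'
    obtain ⟨U₂, hU₂, hU₂2⟩ := nhds_half_sub hU₁
    obtain ⟨d, hd, n, hdn⟩ := hlim (U₁ ∩ U₂) (inter_mem hU₁ hU₂)
    have hd0 : d ≠ 0 := by
      rintro rfl
      exact hg (h0 hd g hgC)
    have hκ : ∀ v : G, ∃ c : C, v ∈ V n → d • v - (c : G) ∈ U₁ ∩ U₂ := by
      intro v
      by_cases hv : v ∈ V n
      · obtain ⟨c, hc, hc2⟩ := hdn v hv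
        exact ⟨⟨c, hc⟩, fun _ => hc2⟩
      · exact ⟨0, fun h => absurd h hv⟩
    choose κ hκ using hκ
    obtain ⟨Ψ, hΨ⟩ := hT5 (fun c => χ (κ (pr z c))) n (1 / 100) (by norm_num) le_rfl (by
      intro a b ha hb hab
      have ea := hκ _ (pr_mem hV hz n a ha)
      have eb := hκ _ (pr_mem hV hz n b hb)
      have eab := hκ _ (pr_mem hV hz n (a + b) (fun j => ⟨hab j, fun hj => by
        rw [Finsupp.add_apply, (ha j).2 hj, (hb j).2 hj, add_zero]⟩))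
      have e1 : ((κ (pr z (a + b)) - κ (pr z a) - κ (pr z b) : C) : G) ∈ U₀ := by
        have e2 : ((κ (pr z (a + b)) - κ (pr z a) - κ (pr z b) : C) : G)
            = (d • pr z a - (κ (pr z a) : G)) + ((d • pr z b - (κ (pr z b) : G))
              - (d • pr z (a + b) - (κ (pr z (a + b)) : G))) := by
          rw [map_add, smul_add]
          push_cast
          abel
        rw [e2]
        exact hU₁2 _ ea.1 _ (hU₂2 _ eb.2 _ eab.2)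
      have e3 := hU₀2 (show (κ (pr z (a + b)) - κ (pr z a) - κ (pr z b) : C) ∈ _ from e1)
      rw [mem_setOf_eq, map_sub, map_sub] at e3
      exact e3.le)
    obtain ⟨Ψ', hΨ'⟩ := exists_div d hd0 Ψ
    obtain ⟨O₁, hO₁, hO₁2⟩ := nhds_half_sub (hW' d hd)
    refine ⟨O₁ ∩ U₁, inter_mem hO₁ hU₁, ?_⟩
    by_contra hcon
    push Not at hcon
    obtain ⟨x, hx, hxO, hxd⟩ := divisible hV hz d (W' d) (k d) (fun j => hgen j d hd) (O₁ ∩ U₁)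
      (fun x hx y hy => hO₁2 x hx.1 y hy.1) g {Ψ'} (1 / 100)
      (fun t => hcon _ ⟨t, {Ψ'}, 1 / 100, by norm_num, rfl⟩) n
    obtain ⟨q, hq, hq2, hq3⟩ := exists_quot d x (Bs_abs hx) hxd
    have e1 := hΨ q (fun j => ⟨hq2 j, fun hj => hq3 j (Bs_supp' hx j hj)⟩)
    have e2 := hx.2 Ψ' (Finset.mem_singleton_self _)
    rw [hq, hΨ'] at e2
    have e3 := hκ (pr z q) (pr_mem hV hz n q (fun j =>
      ⟨small_of_le hq2 j, fun hj => hq3 j (Bs_supp' hx j hj)⟩))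
    have e4 : (((⟨g, hgC⟩ : C) - κ (pr z q) : C) : G) ∈ U₀ := by
      have e5 : (((⟨g, hgC⟩ : C) - κ (pr z q) : C) : G)
          = (g - pr z x) + (d • pr z q - (κ (pr z q) : G)) := by
        rw [hq, map_zsmul]
        push_cast
        abel
      rw [e5]
      exact hU₁2 _ hxO.2 _ e3.1
    have e6 := hU₀2 (show ((⟨g, hgC⟩ : C) - κ (pr z q) : C) ∈ _ from e4)
    rw [mem_setOf_eq, map_sub] at e6
    have e7 : χ ⟨g, hgC⟩ = (χ ⟨g, hgC⟩ - χ (κ (pr z q))) - (Ψ q - χ (κ (pr z q))) + Ψ q := by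
      abel
    have e8 : ‖χ ⟨g, hgC⟩‖ ≤ ‖χ ⟨g, hgC⟩ - χ (κ (pr z q))‖ + ‖Ψ q - χ (κ (pr z q))‖ + ‖Ψ q‖ := by
      calc ‖χ ⟨g, hgC⟩‖ = ‖(χ ⟨g, hgC⟩ - χ (κ (pr z q))) - (Ψ q - χ (κ (pr z q))) + Ψ q‖ := by
            rw [← e7]
        _ ≤ ‖(χ ⟨g, hgC⟩ - χ (κ (pr z q))) - (Ψ q - χ (κ (pr z q)))‖ + ‖Ψ q‖ := norm_add_le _ _
        _ ≤ _ := by
            gcongr
            exact norm_sub_le _ _
    have e9 : ‖Ψ q - χ (κ (pr z q))‖ ≤ 2 * (1 / 100) := e1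
    linarith
  · -- the case `g ∉ C`
    have h1 : {u : G | g - u ∉ C} ∈ 𝓝 (0 : G) := by
      have h2 : ContinuousAt (fun u : G => g - u) 0 := by fun_prop
      have h3 : (C : Set G)ᶜ ∈ 𝓝 (g - 0) := by
        rw [sub_zero]
        exact hC.isClosed.isOpen_compl.mem_nhds hgC
      exact h2 h3
    obtain ⟨U, hU, hU2⟩ := exists_nhds_zero_half h1
    obtain ⟨d, hd, n, hdn⟩ := hlim U hU
    obtain ⟨O₁, hO₁, hO₁2⟩ := nhds_half_sub (hW' d hd)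
    refine ⟨O₁ ∩ U, inter_mem hO₁ hU, ?_⟩
    by_contra hcon
    push Not at hcon
    obtain ⟨x, hx, hxO, hxd⟩ := divisible hV hz d (W' d) (k d) (fun j => hgen j d hd) (O₁ ∩ U)
      (fun x hx y hy => hO₁2 x hx.1 y hy.1) g ∅ 1
      (fun t => hcon _ ⟨t, ∅, 1, by norm_num, rfl⟩) n
    obtain ⟨q, hq, hq2, hq3⟩ := exists_quot d x (Bs_abs hx) hxd
    obtain ⟨c, hc, hc2⟩ := hdn (pr z q) (pr_mem hV hz n q (fun j =>
      ⟨small_of_le hq2 j, fun hj => hq3 j (Bs_supp' hx j hj)⟩))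
    have h4 := hU2 _ hxO.2 _ hc2
    apply h4
    have h5 : g - (g - (pr z) x + (d • (pr z) q - c)) = c := by
      rw [hq, map_zsmul]
      abel
    rw [h5]
    exact hc

end Pool.Agent.H753R3.LM
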