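import Pool.Agent.H753R3.LM.Stmts

set_option autoImplicit false

namespace Pool.Agent.H753R3.LM

open Topology Filter Set

variable {G : Type} [AddCommGroup G]

theorem Chain.succ_subset {V : ℕ → Set G} (hV : Chain V) (n : ℕ) : V (n + 1) ⊆ V n := by
  intro x hx
  have := hV.add n x hx 0 (hV.zero _)
  simpa using this

theorem Chain.anti {V : ℕ → Set G} (hV : Chain V) {m n : ℕ} (h : m ≤ n) : V n ⊆ V m := by
  induction h with
  | refl => exact subset_rfl
  | step _ ih => exact (hV.succ_subset _).trans ih

theorem Chain.sub {V : ℕ → Set G} (hV : Chain V) (n : ℕ) {x y : G} (hx : x ∈ V (n + 1))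
    (hy : y ∈ V (n + 1)) : x - y ∈ V n := by
  rw [sub_eq_add_neg]
  exact hV.add n x hx _ (hV.neg _ y hy)

theorem taskT1 : TaskT1 := by
  classical
  intro G _ V hV ι s
  induction s using Finset.induction_on with
  | empty =>
    intro A n h
    obtain ⟨i, hi, _⟩ := h 0 (hV.zero n)
    exact absurd hi (by simp)
  | insert i₀ s hi₀ ih =>
    intro A n h
    by_cases h0 : Sml (V (n + 1)) {x | ∃ a ∈ A i₀, ∃ b ∈ A i₀, x = a - b}
    · exact ⟨i₀, by simp, n + 1, h0⟩
    · have h1 : ∃ z ∈ V (n + 1), ¬ ∃ a ∈ A i₀, ∃ b ∈ A i₀, z = a - b := by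
        by_contra hcon
        push Not at hcon
        apply h0
        refine ⟨{0}, fun x hx => ⟨0, by simp, ?_⟩⟩
        simpa using hcon x hx
      obtain ⟨z, hz, hz2⟩ := h1
      obtain ⟨i, hi, n', F, hF⟩ := ih (fun i => {y | y ∈ A i ∨ y - z ∈ A i}) (n + 1) (by
        intro x hx
        have hx1 : x ∈ V n := hV.succ_subset n hx
        have hx2 : x - z ∈ V n := hV.sub n hx hz
        obtain ⟨i, hi, hi2⟩ := h x hx1
        obtain ⟨j, hj, hj2⟩ := h (x - z) hx2
        rw [Finset.mem_insert] at hi hj
        rcases hi with hi | hi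
        · rcases hj with hj | hj
          · subst hi
            subst hj
            exact absurd ⟨x, hi2, x - z, hj2, by abel⟩ hz2
          · exact ⟨j, hj, Or.inr hj2⟩
        · exact ⟨i, hi, Or.inl hi2⟩)
      refine ⟨i, Finset.mem_insert_of_mem hi, n',
        F ∪ F.image (fun f => f + z) ∪ F.image (fun f => f - z), ?_⟩
      intro x hx
      obtain ⟨f, hf, a, ha, b, hb, hab⟩ := hF x hx
      rcases ha with ha | ha
      · rcases hb with hb | hb
        · exact ⟨f, by simp [hf], a, ha, b, hb, hab⟩
        · refine ⟨f - z, by simp [hf], a, ha, b - z, hb, ?_⟩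
          rw [← sub_add, hab]
          abel
      · rcases hb with hb | hb
        · refine ⟨f + z, by simp [hf], a - z, ha, b, hb, ?_⟩
          rw [← sub_sub, hab]
          abel
        · refine ⟨f, by simp [hf], a - z, ha, b - z, hb, ?_⟩
          rw [hab]
          abel

end Pool.Agent.H753R3.LM
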